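import Pool.Agent.Lib.MP_182bbb_co.AR.Iface

/-!
# MP_182bbb_co, board ar: module LOWER (stars with few centres contain no expansion)
-/

open Finset MP_182bbb_co.H5

namespace MP_182bbb_co.AR

theorem lower : LOWER_S := by
  intro α V _ _ _ r H L hr hH hL hc
  obtain ⟨k, e, he, rfl, hcard, hstep⟩ := hH
  obtain ⟨g, h, hg, hh, hgh, hG⟩ := exists_of_containsCopy hc
  set T := H5.shadow (univ.image e) with hT
  -- the new vertices
  have hv : ∀ i, ∃ v ∈ e i, v ∉ (Finset.Iio i).biUnion e := by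
    intro i
    by_contra hcon
    push Not at hcon
    rcases Nat.eq_zero_or_pos (i : ℕ) with hi | hi
    · have h1 : (e i).Nonempty := by
        rw [← card_pos, hcard]; omega
      obtain ⟨x, hx⟩ := h1
      have h2 := hcon x hx
      rw [mem_biUnion] at h2
      obtain ⟨j, hj, -⟩ := h2
      rw [mem_Iio, Fin.lt_def] at hj
      omega
    · have h1 := (hstep i hi).1
      have h2 : e i ∩ (Finset.Iio i).biUnion e = e i := inter_eq_left.2 hcon
      rw [h2, hcard] at h1
      omega
  choose v hve hvU using hv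
  have hlt : ∀ i j : Fin (k + 1), i < j → v j ∉ e i := by
    intro i j hij hm
    exact hvU j (mem_biUnion.2 ⟨i, mem_Iio.2 hij, hm⟩)
  -- facets
  have hfac : ∀ i, ∀ x ∈ e i, (e i).erase x ∈ T := by
    intro i x hx
    rw [hT, H5.shadow, mem_biUnion]
    exact ⟨e i, mem_image_of_mem _ (mem_univ i), mem_image_of_mem _ hx⟩
  have hvert : ∀ i, ∀ x ∈ e i, x ∈ verts T := by
    intro i x hx
    have h1 : ((e i).erase x).Nonempty := by
      rw [← card_pos, card_erase_of_mem hx, hcard]; omega
    obtain ⟨y, hy⟩ := h1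
    rw [mem_erase] at hy
    exact mem_verts.2 ⟨_, hfac i y hy.2, mem_erase.2 ⟨hy.1.symm, hx⟩⟩
  have hone : ∀ s ∈ T, (insert (h s) (s.image g) ∩ L).card = 1 := by
    intro s hs
    have h1 := hG s hs
    rw [star, mem_filter] at h1
    exact h1.2
  have huniq : ∀ s ∈ T, ∀ a ∈ insert (h s) (s.image g), ∀ b ∈ insert (h s) (s.image g),
      a ∈ L → b ∈ L → a = b := by
    intro s hs a ha b hb haL hbL
    obtain ⟨c, hc⟩ := card_eq_one.1 (hone s hs)
    have h1 : a ∈ insert (h s) (s.image g) ∩ L := mem_inter.2 ⟨ha, haL⟩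
    have h2 : b ∈ insert (h s) (s.image g) ∩ L := mem_inter.2 ⟨hb, hbL⟩
    rw [hc, mem_singleton] at h1 h2
    rw [h1, h2]
  have hex : ∀ s ∈ T, ∃ a ∈ insert (h s) (s.image g), a ∈ L := by
    intro s hs
    obtain ⟨c, hc⟩ := card_eq_one.1 (hone s hs)
    have h1 : c ∈ insert (h s) (s.image g) ∩ L := by rw [hc]; exact mem_singleton_self c
    exact ⟨c, (mem_inter.1 h1).1, (mem_inter.1 h1).2⟩
  -- one point of the star for every edge
  have key : ∀ i, ∃ z ∈ L, z = g (v i) ∨ ∃ p ∈ T, v i ∈ p ∧ p ⊆ e i ∧ z = h p := by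
    intro i
    by_cases hgv : g (v i) ∈ L
    · exact ⟨_, hgv, Or.inl rfl⟩
    · set q := (e i).erase (v i) with hq
      have hqT : q ∈ T := hfac i _ (hve i)
      obtain ⟨x, hxq, hx⟩ : ∃ x ∈ q, ∀ y ∈ q, y ≠ x → g y ∉ L := by
        by_cases hex2 : ∃ x ∈ q, g x ∈ L
        · obtain ⟨x, hxq, hxL⟩ := hex2
          refine ⟨x, hxq, fun y hyq hyx hyL => hyx ?_⟩
          have h1 := huniq q hqT (g y) (mem_insert_of_mem (mem_image_of_mem _ hyq)) (g x)
            (mem_insert_of_mem (mem_image_of_mem _ hxq)) hyL hxL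
          exact hg (mem_coe.2 (mem_verts.2 ⟨q, hqT, hyq⟩))
            (mem_coe.2 (mem_verts.2 ⟨q, hqT, hxq⟩)) h1
        · push Not at hex2
          have h1 : q.Nonempty := by
            rw [← card_pos, hq, card_erase_of_mem (hve i), hcard]; omega
          obtain ⟨x, hx⟩ := h1
          exact ⟨x, hx, fun y hy _ => hex2 y hy⟩
      have hxe : x ∈ e i := mem_of_mem_erase hxq
      have hxv : x ≠ v i := ne_of_mem_erase hxq
      have hpT : (e i).erase x ∈ T := hfac i x hxe
      obtain ⟨a, ha, haL⟩ := hex _ hpT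
      rw [mem_insert] at ha
      rcases ha with rfl | ha
      · exact ⟨_, haL, Or.inr ⟨_, hpT, mem_erase.2 ⟨hxv.symm, hve i⟩, erase_subset _ _, rfl⟩⟩
      · exfalso
        rw [mem_image] at ha
        obtain ⟨y, hy, rfl⟩ := ha
        rw [mem_erase] at hy
        by_cases hyv : y = v i
        · rw [hyv] at haL
          exact hgv haL
        · exact hx y (mem_erase.2 ⟨hyv, hy.2⟩) hy.1 haL
  choose z hzL hz using key
  -- one more point
  set q₀ := (e 0).erase (v 0) with hq₀
  have hq₀T : q₀ ∈ T := hfac 0 _ (hve 0)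
  obtain ⟨z₀, hz₀, hz₀L⟩ := hex q₀ hq₀T
  have hvq : ∀ i, v i ∉ q₀ := by
    intro i hi
    rcases Nat.eq_zero_or_pos (i : ℕ) with hi0 | hi0
    · have h1 : i = 0 := Fin.ext hi0
      rw [h1] at hi
      exact (ne_of_mem_erase hi) rfl
    · exact hlt 0 i (Fin.lt_def.2 hi0) (mem_of_mem_erase hi)
  have hzz : ∀ i j : Fin (k + 1), i < j → z i ≠ z j := by
    intro i j hij hzij
    rcases hz i with h1 | ⟨p, hp, hvp, hpe, h1⟩
    · rcases hz j with h2 | ⟨p', hp', hvp', hpe', h2⟩
      · rw [h1, h2] at hzij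
        have h3 := hg (mem_coe.2 (hvert i _ (hve i))) (mem_coe.2 (hvert j _ (hve j))) hzij
        exact hlt i j hij (h3 ▸ hve i)
      · rw [h1, h2] at hzij
        exact hgh _ (hvert i _ (hve i)) _ hp' hzij
    · rcases hz j with h2 | ⟨p', hp', hvp', hpe', h2⟩
      · rw [h1, h2] at hzij
        exact hgh _ (hvert j _ (hve j)) _ hp hzij.symm
      · rw [h1, h2] at hzij
        have h3 := hh (mem_coe.2 hp) (mem_coe.2 hp') hzij
        exact hlt i j hij (hpe (h3 ▸ hvp'))
  have hz0 : ∀ i, z i ≠ z₀ := by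
    intro i hzi
    rw [mem_insert, mem_image] at hz₀
    rcases hz i with h1 | ⟨p, hp, hvp, hpe, h1⟩
    · rcases hz₀ with h2 | ⟨y, hy, h2⟩
      · rw [h1, h2] at hzi
        exact hgh _ (hvert i _ (hve i)) _ hq₀T hzi
      · rw [h1, ← h2] at hzi
        have h3 := hg (mem_coe.2 (hvert i _ (hve i)))
          (mem_coe.2 (mem_verts.2 ⟨q₀, hq₀T, hy⟩)) hzi
        exact hvq i (h3 ▸ hy)
    · rcases hz₀ with h2 | ⟨y, hy, h2⟩
      · rw [h1, h2] at hzi
        have h3 := hh (mem_coe.2 hp) (mem_coe.2 hq₀T) hzi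
        exact hvq i (h3 ▸ hvp)
      · rw [h1, ← h2] at hzi
        exact hgh _ (mem_verts.2 ⟨q₀, hq₀T, hy⟩) _ hp hzi.symm
  have hinj : Function.Injective fun o : Option (Fin (k + 1)) => o.elim z₀ z := by
    intro a b hab
    cases a with
    | none =>
      cases b with
      | none => rfl
      | some j => exact absurd hab.symm (hz0 j)
    | some i =>
      cases b with
      | none => exact absurd hab (hz0 i)
      | some j =>
        rcases lt_trichotomy i j with h1 | h1 | h1
        · exact absurd hab (hzz i j h1)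
        · rw [h1]
        · exact absurd hab.symm (hzz j i h1)
  have hle := Finset.card_le_card_of_injOn (s := (univ : Finset (Option (Fin (k + 1)))))
    (t := L) (fun o => o.elim z₀ z) (by
      intro a _
      cases a with
      | none => exact hz₀L
      | some i => exact hzL i) hinj.injOn
  rw [card_univ, Fintype.card_option, Fintype.card_fin] at hle
  rw [card_image_of_injective _ he, card_univ, Fintype.card_fin] at hL
  omega

end MP_182bbb_co.AR
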