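import Pool.Agent.Lib.MP_182bbb_co.AR.Iface

/-!
# MP_182bbb_co, board ar: module STARCARD (the number of edges of the star)
-/

open Finset MP_182bbb_co.H5

namespace MP_182bbb_co.AR

theorem starcard : STARCARD_S := by
  intro V _ _ r L hr
  obtain ⟨r, rfl⟩ : ∃ r', r = r' + 1 := ⟨r - 1, by omega⟩
  rw [Nat.add_sub_cancel]
  have hcard : (Lᶜ.powersetCard r).card = (Fintype.card V - L.card).choose r := by
    rw [card_powersetCard, card_compl]
  rw [← hcard, ← card_product]
  symm
  have hint : ∀ x : V × Finset V, x ∈ L ×ˢ Lᶜ.powersetCard r →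
      insert x.1 x.2 ∩ L = {x.1} ∧ insert x.1 x.2 \ L = x.2 ∧ x.1 ∉ x.2 ∧ x.2.card = r := by
    intro x hx
    rw [mem_product, mem_powersetCard] at hx
    obtain ⟨h1, h2, h3⟩ := hx
    have h4 : ∀ y ∈ x.2, y ∉ L := fun y hy => mem_compl.1 (h2 hy)
    refine ⟨?_, ?_, fun h5 => h4 _ h5 h1, h3⟩
    · ext y
      rw [mem_inter, mem_insert, mem_singleton]
      constructor
      · rintro ⟨rfl | h5, h6⟩
        · rfl
        · exact absurd h6 (h4 y h5)
      · rintro rfl
        exact ⟨Or.inl rfl, h1⟩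
    · ext y
      rw [mem_sdiff, mem_insert]
      constructor
      · rintro ⟨rfl | h5, h6⟩
        · exact absurd h1 h6
        · exact h5
      · intro h5
        exact ⟨Or.inr h5, h4 y h5⟩
  refine card_bij (fun x _ => insert x.1 x.2) ?_ ?_ ?_
  · intro x hx
    obtain ⟨h1, -, h3, h4⟩ := hint x hx
    rw [star, mem_filter, mem_powersetCard, h1, card_singleton, card_insert_of_notMem h3, h4]
    exact ⟨⟨subset_univ _, rfl⟩, rfl⟩
  · intro x hx y hy hxy
    obtain ⟨h1, h2, -, -⟩ := hint x hx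
    obtain ⟨h1', h2', -, -⟩ := hint y hy
    have h5 : ({x.1} : Finset V) = {y.1} := by rw [← h1, ← h1', hxy]
    have h6 : x.2 = y.2 := by rw [← h2, ← h2', hxy]
    exact Prod.ext (singleton_injective h5) h6
  · intro s hs
    rw [star, mem_filter, mem_powersetCard] at hs
    obtain ⟨⟨-, hs1⟩, hs2⟩ := hs
    obtain ⟨a, ha⟩ := card_eq_one.1 hs2
    have haL : a ∈ s ∩ L := by rw [ha]; exact mem_singleton_self a
    rw [mem_inter] at haL
    refine ⟨(a, s.erase a), ?_, insert_erase haL.1⟩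
    rw [mem_product, mem_powersetCard]
    refine ⟨haL.2, ?_, ?_⟩
    · intro y hy
      rw [mem_erase] at hy
      rw [mem_compl]
      intro hyL
      apply hy.1
      have h1 : y ∈ s ∩ L := mem_inter.2 ⟨hy.2, hyL⟩
      rw [ha, mem_singleton] at h1
      exact h1
    · rw [card_erase_of_mem haL.1, hs1, Nat.add_sub_cancel]

end MP_182bbb_co.AR
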